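import Pool.Agent.H661R3.DC.Hat

/-! Classification of the indecomposable torsion-free modules. -/

set_option autoImplicit false

namespace Pool.Agent.H661R3.DC

open PowerSeries IsLocalRing

section
variable {k : Type} [Field k]

/-- The ideals `I_n = {r : t^n ∣ fst r}`. -/
noncomputable def II (σ : PowerSeries k) (n : ℕ) : Ideal (RR σ) :=
  Ideal.comap ((fs k).comp (RR σ).subtype) (Ideal.span {X ^ n})

variable {σ : PowerSeries k}

theorem mem_II (n : ℕ) (r : RR σ) : r ∈ II σ n ↔ X ^ n ∣ fs k (r : BB k) := by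
  rw [II, Ideal.mem_comap, Ideal.mem_span_singleton]; rfl

theorem dvd_w_sub (hσ : Trans σ) (n : ℕ) : tR σ ^ n ∣ wR σ (n + 1) - wR σ n := by
  rw [tR_pow_dvd_iff hσ, AddSubgroupClass.coe_sub, map_sub, sn_sub, sn_wR, sn_wR, sub_self]
  exact ⟨dvd_sub ((pow_dvd_pow _ (Nat.le_succ n)).trans (dvd_fs_wR σ (n + 1))) (dvd_fs_wR σ n),
    dvd_zero _⟩

theorem mem_II_decomp (hσ : Trans σ) {n : ℕ} {i : RR σ} (hi : i ∈ II σ n) :
    ∃ a b : RR σ, i = a * wR σ (n + 1) + tR σ ^ n * b := by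
  rw [mem_II] at hi
  have h1 : tR σ ^ n ∣ i - psiR σ (Polynomial.C (trunc n (sn (i : BB k)))) * wR σ (n + 1) := by
    rw [tR_pow_dvd_iff hσ, AddSubgroupClass.coe_sub, Subring.coe_mul, coe_psiR, psi_C]
    constructor
    · rw [map_sub, map_mul]
      exact dvd_sub hi (Dvd.dvd.mul_left ((pow_dvd_pow _ (Nat.le_succ n)).trans
        (dvd_fs_wR σ (n + 1))) _)
    · rw [sn_sub, sn_mul, sn_wR, fs_inD, sn_inD, zero_mul, add_zero, mul_one]
      exact X_pow_dvd_sub_trunc _ n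
  obtain ⟨b, hb⟩ := h1
  exact ⟨psiR σ (Polynomial.C (trunc n (sn (i : BB k)))), b, by rw [← hb]; ring⟩

variable {M : Type} [AddCommGroup M] [Module (RR σ) M]

/-- Structure found in every torsion-free module. -/
theorem exists_e (hσ : Trans σ) [Nontrivial M] {r c : ℕ}
    (ι : M →ₗ[RR σ] (Fin r → RR σ)) (hι : Function.Injective ι)
    (f : Fin r → M) (hf : ∀ i j, ι (f i) j = if i = j then tR σ ^ c else 0) :
    ∃ (n : ℕ) (e z : M), (∀ m : M, ∃ m', wR σ (n + 1) • m = tR σ ^ n • m') ∧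
      wR σ (n + 1) • e = tR σ ^ n • z ∧ ∀ m, z ≠ tR σ • m := by
  classical
  have := isDomain_RR hσ
  obtain ⟨m0, hm0⟩ := exists_ne (0 : M)
  have hne : Nonempty (Fin r) := by
    by_contra hcon
    rw [not_nonempty_iff] at hcon
    apply hm0
    apply hι
    exact Subsingleton.elim _ _
  obtain ⟨i0⟩ := hne
  have hP : ∃ n, ¬ ∀ m : M, ∃ m', wR σ n • m = tR σ ^ n • m' := by
    refine ⟨c + 1, fun hall => ?_⟩
    obtain ⟨m', hm'⟩ := hall (f i0)
    have h1 : wR σ (c + 1) * tR σ ^ c = tR σ ^ (c + 1) * ι m' i0 := by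
      have := congrFun (congrArg ι hm') i0
      rw [map_smul, map_smul, Pi.smul_apply, Pi.smul_apply, hf, if_pos rfl] at this
      exact this
    have h2 : wR σ (c + 1) = tR σ * ι m' i0 := by
      apply mul_right_cancel₀ (tR_pow_ne_zero c)
      rw [h1]; ring
    have h3 : tR σ ^ 1 ∣ wR σ (c + 1) := by rw [pow_one]; exact ⟨_, h2⟩
    rw [tR_pow_dvd_iff hσ, sn_wR, pow_one] at h3
    have h4 := X_dvd_iff.1 h3.2
    simp at h4
  have hQ : ∃ n, (∀ m : M, ∃ m', wR σ n • m = tR σ ^ n • m') ∧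
      ¬ ∀ m : M, ∃ m', wR σ (n + 1) • m = tR σ ^ (n + 1) • m' := by
    have hne : Nat.find hP ≠ 0 := by
      intro h0
      apply Nat.find_spec hP
      rw [h0]
      exact fun m => ⟨wR σ 0 • m, by rw [pow_zero, one_smul]⟩
    obtain ⟨n, hn⟩ := Nat.exists_eq_succ_of_ne_zero hne
    refine ⟨n, ?_, ?_⟩
    · by_contra hcon
      have := Nat.find_min' hP hcon
      omega
    · have := Nat.find_spec hP
      rw [hn] at this
      exact this
  obtain ⟨n, hPn, hPn1⟩ := hQ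
  obtain ⟨s, hs⟩ := dvd_w_sub hσ n
  have hPw : ∀ m : M, ∃ m', wR σ (n + 1) • m = tR σ ^ n • m' := by
    intro m
    obtain ⟨m', hm'⟩ := hPn m
    refine ⟨m' + s • m, ?_⟩
    rw [smul_add, ← hm', smul_smul, ← hs, ← add_smul]
    congr 1; ring
  push Not at hPn1
  obtain ⟨e, he⟩ := hPn1
  obtain ⟨z, hz⟩ := hPw e
  refine ⟨n, e, z, hPw, hz, ?_⟩
  rintro m rfl
  apply he m
  rw [hz, smul_smul, pow_succ]

theorem approx_H (hσ : Trans σ) {r c : ℕ} (ι : M →ₗ[RR σ] (Fin r → RR σ))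
    (hι : Function.Injective ι)
    (f : Fin r → M) (hf : ∀ i j, ι (f i) j = if i = j then tR σ ^ c else 0)
    (H : Hat ι →ₗ[BB k] BB k) (N : ℕ) :
    ∃ h : M →ₗ[RR σ] RR σ, ∀ m, ∃ b : BB k,
      (h m : BB k) = H ⟨toB ι m, toB_mem ι m⟩ + tB k ^ N * b := by
  classical
  have := isDomain_RR hσ
  let Hm : M →+ BB k :=
    { toFun := fun m => H ⟨toB ι m, toB_mem ι m⟩
      map_zero' := by
        rw [← map_zero H]
        congr 1
        apply Subtype.ext
        funext i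
        simp [toB]
      map_add' := by
        intro m m'
        rw [← map_add]
        congr 1
        exact Subtype.ext (toB_add ι m m') }
  have Hm_smul : ∀ (x : RR σ) m, Hm (x • m) = (x : BB k) * Hm m := by
    intro x m
    show H _ = (x : BB k) * H _
    rw [← smul_eq_mul, ← map_smul]
    congr 1
    exact Subtype.ext (toB_smul ι x m)
  choose C hC using fun i => dense σ (Hm (f i)) (c + N)
  choose D hD using hC
  have key : ∀ m : M, ∃ y : RR σ, tR σ ^ c * y = ∑ i, ι m i * C i ∧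
      ∃ b : BB k, (y : BB k) = Hm m + tB k ^ N * b := by
    intro m
    have h1 : tB k ^ c * Hm m = ∑ i, (ι m i : BB k) * Hm (f i) := by
      have h2 : tR σ ^ c • m = ∑ i, ι m i • f i := by
        apply hι
        rw [map_smul, map_sum]
        funext j
        rw [Finset.sum_apply, Pi.smul_apply, Finset.sum_eq_single j]
        · rw [map_smul, Pi.smul_apply, hf, if_pos rfl, smul_eq_mul, smul_eq_mul, mul_comm]
        · intro i _ hij
          rw [map_smul, Pi.smul_apply, hf, if_neg hij, smul_zero]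
        · intro h; exact absurd (Finset.mem_univ _) h
      have h3 : Hm (tR σ ^ c • m) = Hm (∑ i, ι m i • f i) := by rw [h2]
      rw [Hm_smul, coe_tR_pow] at h3
      rw [h3, map_sum]
      exact Finset.sum_congr rfl (fun i _ => Hm_smul _ _)
    have h5 : ((∑ i, ι m i * C i : RR σ) : BB k) =
        tB k ^ c * (Hm m + tB k ^ N * ∑ i, (ι m i : BB k) * D i) := by
      rw [mul_add, h1, AddSubmonoidClass.coe_finsetSum, Finset.mul_sum, Finset.mul_sum,
        ← Finset.sum_add_distrib]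
      refine Finset.sum_congr rfl (fun i _ => ?_)
      have h6 := hD i
      rw [Subring.coe_mul]
      have h7 : (C i : BB k) = Hm (f i) + tB k ^ (c + N) * D i := by rw [← h6]; ring
      rw [h7, pow_add]; ring
    have h8 : (Hm m + tB k ^ N * ∑ i, (ι m i : BB k) * D i) ∈ RR σ := by
      apply mem_of_mul hσ (x := tR σ ^ c) (y := ∑ i, ι m i * C i) (tR_pow_ne_zero c)
      rw [h5, coe_tR_pow]
    refine ⟨⟨_, h8⟩, ?_, _, rfl⟩
    apply Subtype.ext
    rw [h5, Subring.coe_mul, coe_tR_pow]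
  choose y hy b hb using key
  have yuniq : ∀ (m : M) (x : RR σ), tR σ ^ c * x = ∑ i, ι m i * C i → y m = x := by
    intro m x hx
    apply mul_left_cancel₀ (tR_pow_ne_zero c)
    rw [hy, hx]
  refine ⟨{ toFun := y
            map_add' := ?_
            map_smul' := ?_ }, fun m => ⟨b m, hb m⟩⟩
  · intro m m'
    apply yuniq
    rw [mul_add, hy, hy, ← Finset.sum_add_distrib]
    refine Finset.sum_congr rfl (fun i _ => ?_)
    rw [map_add, Pi.add_apply, add_mul]
  · intro x m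
    rw [RingHom.id_apply, smul_eq_mul]
    apply yuniq
    rw [mul_left_comm, hy, Finset.mul_sum]
    refine Finset.sum_congr rfl (fun i _ => ?_)
    rw [map_smul, Pi.smul_apply, smul_eq_mul, mul_assoc]

theorem exists_g (hσ : Trans σ) (tcan : ∀ (n : ℕ) (m m' : M), tR σ ^ n • m = tR σ ^ n • m' → m = m')
    {n : ℕ} {e z : M} (hez : wR σ (n + 1) • e = tR σ ^ n • z) :
    ∃ g : II σ n →ₗ[RR σ] M, ∀ i : II σ n, tR σ ^ n • g i = (i : RR σ) • e := by
  have gex : ∀ i : II σ n, ∃ m : M, tR σ ^ n • m = (i : RR σ) • e := by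
    rintro ⟨i, hi⟩
    obtain ⟨a, b', rfl⟩ := mem_II_decomp hσ hi
    refine ⟨a • z + b' • e, ?_⟩
    show _ = (a * wR σ (n + 1) + tR σ ^ n * b') • e
    rw [add_smul, mul_smul, hez, smul_add, mul_smul, smul_comm a]
  choose g0 hg0 using gex
  refine ⟨{ toFun := g0
            map_add' := ?_
            map_smul' := ?_ }, hg0⟩
  · intro i j
    apply tcan n
    rw [hg0, smul_add, hg0, hg0, ← add_smul]; rfl
  · intro x i
    apply tcan n
    rw [hg0, RingHom.id_apply, smul_comm, hg0, smul_smul]; rfl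

theorem bij_of_unit (hσ : Trans σ) {n : ℕ} {ye : RR σ} {u : PowerSeries k}
    (hu : fs k (ye : BB k) = X ^ n * u) (hu0 : constantCoeff u ≠ 0) (G : II σ n → II σ n)
    (hG : ∀ i : II σ n, tR σ ^ n * (G i : RR σ) = (i : RR σ) * ye) : Function.Bijective G := by
  have := isDomain_RR hσ
  have hunit : IsUnit u := by
    rw [PowerSeries.isUnit_iff_constantCoeff, isUnit_iff_ne_zero]; exact hu0
  obtain ⟨u', huu'⟩ := hunit.exists_right_inv
  have hye : ye ≠ 0 := by
    intro h0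
    rw [h0] at hu
    have h1 : (0 : PowerSeries k) = X ^ n * u := by rw [← hu]; simp
    rcases mul_eq_zero.1 h1.symm with h2 | h2
    · exact pow_ne_zero n X_ne_zero h2
    · rw [h2] at hu0; simp at hu0
  constructor
  · intro i j hij
    have h1 := hG i
    rw [hij, hG j] at h1
    exact Subtype.ext (mul_right_cancel₀ hye h1).symm
  · rintro ⟨j, hj⟩
    have hj' := hj
    rw [mem_II] at hj'
    obtain ⟨j0, hj0⟩ := hj'
    obtain ⟨iB, hiB1, hiB⟩ : ∃ iB : BB k, X ^ n ∣ fs k iB ∧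
        (ye : BB k) * iB = ((tR σ ^ n * j : RR σ) : BB k) := by
      refine ⟨mkB (X ^ n * (j0 * u')) ((sn (j : BB k) - sn (ye : BB k) * (j0 * u')) * u'), ?_, ?_⟩
      · rw [fs_mkB]; exact dvd_mul_right _ _
      · rw [Subring.coe_mul, coe_tR_pow]
        apply B_ext
        · rw [map_mul, fs_mkB, hu, fs_tB_pow_mul, hj0]
          linear_combination (X ^ n * X ^ n * j0) * huu'
        · rw [sn_mul, fs_mkB, sn_mkB, hu, sn_tB_pow_mul]
          linear_combination (X ^ n * (sn (j : BB k) - sn (ye : BB k) * (j0 * u'))) * huu'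
    have hiR : iB ∈ RR σ := mem_of_mul hσ hye hiB
    have hiI : (⟨iB, hiR⟩ : RR σ) ∈ II σ n := by
      rw [mem_II]; exact hiB1
    refine ⟨⟨⟨iB, hiR⟩, hiI⟩, ?_⟩
    apply Subtype.ext
    apply mul_left_cancel₀ (tR_pow_ne_zero n)
    rw [hG]
    apply Subtype.ext
    rw [← hiB, Subring.coe_mul, mul_comm]

theorem exists_retract (hσ : Trans σ) [Module.Finite (RR σ) M] [Nontrivial M]
    (htf : ∀ r : RR σ, r ≠ 0 → ∀ m : M, r • m = 0 → m = 0) :
    ∃ (n : ℕ) (g : II σ n →ₗ[RR σ] M) (h : M →ₗ[RR σ] II σ n),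
      Function.Bijective (fun x => h (g x)) := by
  classical
  have := isDomain_RR hσ
  obtain ⟨r, c, ι, f, hι, hf⟩ := exists_emb tR_ne_zero (fun x hx => exists_dvd_pow hσ hx) M htf
  have tcan : ∀ (n : ℕ) (m m' : M), tR σ ^ n • m = tR σ ^ n • m' → m = m' := by
    intro n m m' h
    have := htf _ (tR_pow_ne_zero n) (m - m') (by rw [smul_sub, h, sub_self])
    exact sub_eq_zero.1 this
  obtain ⟨n, e, z, hPw, hez, hz⟩ := exists_e hσ ι hι f hf
  obtain ⟨H, hH⟩ := exists_H hσ ι hι f hf z hz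
  obtain ⟨y, hy⟩ := approx_H hσ ι hι f hf H (n + 1)
  have hwfs : X ^ (n + 1) ∣ fs k (wR σ (n + 1) : BB k) := dvd_fs_wR σ (n + 1)
  -- divisibility of the first coordinate
  have Hm_fs : ∀ m m', wR σ (n + 1) • m = tR σ ^ n • m' →
      fs k (H ⟨toB ι m, toB_mem ι m⟩) = X ^ n * sn (H ⟨toB ι m', toB_mem ι m'⟩) -
        fs k (wR σ (n + 1) : BB k) * sn (H ⟨toB ι m, toB_mem ι m⟩) := by
    intro m m' h
    have h1 : (wR σ (n + 1) : BB k) * H ⟨toB ι m, toB_mem ι m⟩ =
        tB k ^ n * H ⟨toB ι m', toB_mem ι m'⟩ := by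
      rw [← smul_eq_mul, ← smul_eq_mul, ← map_smul, ← map_smul]
      congr 1
      apply Subtype.ext
      show (wR σ (n + 1) : BB k) • toB ι m = tB k ^ n • toB ι m'
      rw [← coe_tR_pow (σ := σ), ← toB_smul, ← toB_smul, h]
    have h2 := congrArg sn h1
    rw [sn_mul, sn_tB_pow_mul, sn_wR, one_mul] at h2
    rw [← h2]; ring
  -- `y m ∈ I_n`
  have ymem : ∀ m, y m ∈ II σ n := by
    intro m
    obtain ⟨b, hb⟩ := hy m
    rw [mem_II, hb, map_add]
    obtain ⟨m', hm'⟩ := hPw m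
    rw [Hm_fs m m' hm', fs_tB_pow_mul]
    apply dvd_add
    · apply dvd_sub (dvd_mul_right _ _)
      exact Dvd.dvd.mul_right ((pow_dvd_pow _ (Nat.le_succ n)).trans hwfs) _
    · exact Dvd.dvd.mul_right (pow_dvd_pow _ (Nat.le_succ n)) _
  obtain ⟨g, hg⟩ := exists_g hσ tcan hez
  -- `fs (y e) = X^n * unit`
  obtain ⟨u, hu, hu0⟩ : ∃ u : PowerSeries k, fs k (y e : BB k) = X ^ n * u ∧ constantCoeff u ≠ 0 := by
    obtain ⟨v, hv⟩ := hwfs
    obtain ⟨b, hb⟩ := hy e
    refine ⟨sn (H ⟨toB ι z, toB_mem ι z⟩) - X * (v * sn (H ⟨toB ι e, toB_mem ι e⟩)) +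
      X * fs k b, ?_, ?_⟩
    · rw [hb, map_add, Hm_fs e z hez, fs_tB_pow_mul, hv]; ring
    · rw [map_add, map_sub, map_mul, constantCoeff_X, zero_mul, sub_zero, map_mul, constantCoeff_X,
        zero_mul, add_zero]
      exact hH
  refine ⟨n, g, y.codRestrict (II σ n) ymem, ?_⟩
  apply bij_of_unit hσ hu hu0
  intro i
  show tR σ ^ n * y (g i) = i * y e
  have h1 : y (tR σ ^ n • g i) = y ((i : RR σ) • e) := by rw [hg]
  rw [map_smul, map_smul] at h1
  exact h1

/-- Indecomposable torsion-free modules. -/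
theorem exists_equiv (hσ : Trans σ) [Module.Finite (RR σ) M] [Nontrivial M]
    (htf : ∀ r : RR σ, r ≠ 0 → ∀ m : M, r • m = 0 → m = 0)
    (hind : ∀ A B : Submodule (RR σ) M, IsCompl A B → A = ⊥ ∨ B = ⊥) :
    ∃ n, Nonempty (M ≃ₗ[RR σ] II σ n) := by
  obtain ⟨n, g, h, hinj, hsurj⟩ := exists_retract hσ htf
  refine ⟨n, ?_⟩
  have hc : IsCompl (LinearMap.range g) (LinearMap.ker h) := by
    constructor
    · rw [Submodule.disjoint_def]
      rintro _ ⟨i, rfl⟩ hi
      have h1 : h (g i) = h (g 0) := by rw [map_zero, map_zero]; exact hi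
      have h2 : i = 0 := hinj h1
      rw [h2, map_zero]
    · rw [codisjoint_iff, eq_top_iff]
      intro m _
      obtain ⟨i, hi⟩ := hsurj (h m)
      have : m = g i + (m - g i) := by abel
      rw [this]
      apply Submodule.add_mem_sup (LinearMap.mem_range_self g i)
      rw [LinearMap.mem_ker, map_sub]
      rw [show h (g i) = h m from hi, sub_self]
  have hker : LinearMap.ker h = ⊥ := by
    rcases hind _ _ hc with h1 | h1
    · exfalso
      have h2 : (⟨tR σ ^ n, by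
          rw [mem_II, coe_tR_pow, tB_pow, fs_inD]⟩ : II σ n) = 0 := by
        apply hinj
        have h3 : ∀ i, g i = 0 := by
          intro i
          have : g i ∈ LinearMap.range g := ⟨i, rfl⟩
          rw [h1] at this
          exact this
        show h (g _) = h (g _)
        rw [h3, h3]
      exact tR_pow_ne_zero n (congrArg Subtype.val h2)
    · exact h1
  refine ⟨LinearEquiv.ofBijective h ⟨LinearMap.ker_eq_bot.1 hker, ?_⟩⟩
  intro j
  obtain ⟨i, hi⟩ := hsurj j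
  exact ⟨g i, hi⟩

/-- `I_m` does not lift up to `t^N` for `N < m`. -/
theorem not_lift (hσ : Trans σ) (m N : ℕ) (hN : N < m) : ¬ Lift (tR σ) N (II σ m) := by
  intro hL
  have := isDomain_RR hσ
  have hm : tR σ ^ m ∈ II σ m := by rw [mem_II, coe_tR_pow, tB_pow, fs_inD]
  have hwm : wR σ m ∈ II σ m := by rw [mem_II]; exact dvd_fs_wR σ m
  have hwm' : wR σ (m + 1) ∈ II σ m := by
    rw [mem_II]; exact (pow_dvd_pow _ (Nat.le_succ m)).trans (dvd_fs_wR σ (m + 1))
  let p : (RR σ × RR σ) →ₗ[RR σ] II σ m :=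
    (LinearMap.toSpanSingleton (RR σ) (II σ m) ⟨tR σ ^ m, hm⟩).coprod
      (LinearMap.toSpanSingleton (RR σ) (II σ m) ⟨wR σ (m + 1), hwm'⟩)
  have hp : ∀ a b : RR σ, ((p (a, b) : II σ m) : RR σ) = a * tR σ ^ m + b * wR σ (m + 1) := by
    intro a b
    simp [p]
  have hps : Function.Surjective p := by
    rintro ⟨i, hi⟩
    obtain ⟨a, b, rfl⟩ := mem_II_decomp hσ hi
    refine ⟨(b, a), Subtype.ext ?_⟩
    rw [hp]; ring
  obtain ⟨s, hs⟩ := hL _ _ p hps LinearMap.id
  set x0 : II σ m := ⟨tR σ ^ m, hm⟩ with hx0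
  set w0 : II σ m := ⟨wR σ (m + 1), hwm'⟩ with hw0
  have hcomm : wR σ (m + 1) • s x0 = tR σ ^ m • s w0 := by
    rw [← map_smul, ← map_smul]
    congr 1
    apply Subtype.ext
    show wR σ (m + 1) * tR σ ^ m = tR σ ^ m * wR σ (m + 1)
    ring
  have hdiv : ∀ a b : RR σ, wR σ (m + 1) * a = tR σ ^ m * b → X ^ m ∣ fs k (a : BB k) := by
    intro a b hab
    have h1 : tR σ ^ m ∣ wR σ (m + 1) * a := ⟨b, hab⟩
    rw [tR_pow_dvd_iff hσ, Subring.coe_mul, sn_mul, sn_wR, one_mul] at h1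
    have h2 : X ^ m ∣ fs k (wR σ (m + 1) : BB k) * sn (a : BB k) :=
      Dvd.dvd.mul_right ((pow_dvd_pow _ (Nat.le_succ m)).trans (dvd_fs_wR σ (m + 1))) _
    exact (dvd_add_right h2).1 h1.2
  obtain ⟨α, hα⟩ := hdiv (s x0).1 (s w0).1 (congrArg Prod.fst hcomm)
  obtain ⟨β, hβ⟩ := hdiv (s x0).2 (s w0).2 (congrArg Prod.snd hcomm)
  have h3 := congrArg Subtype.val (hs x0)
  have h4 : (s x0).1 * tR σ ^ m + (s x0).2 * wR σ (m + 1) = tR σ ^ N * tR σ ^ m := by
    rw [← hp]; exact h3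
  have h5 := congrArg (fun r : RR σ => fs k (r : BB k)) h4
  simp only [Subring.coe_add, Subring.coe_mul, coe_tR_pow, tB_pow] at h5
  rw [map_add, map_mul, map_mul, map_mul, fs_inD, fs_inD, hα, hβ] at h5
  obtain ⟨ω, hω⟩ := dvd_fs_wR σ (m + 1)
  rw [hω] at h5
  have h6 : X ^ (m + m) ∣ (X : PowerSeries k) ^ (N + m) := by
    refine ⟨α + β * X * ω, ?_⟩
    rw [pow_add X N m, ← h5]; ring
  have h7 := (pow_dvd_pow_iff (X_ne_zero) (PowerSeries.X_prime.not_isUnit)).1 h6
  omega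

end

end Pool.Agent.H661R3.DC
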