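import Mathlib

/-! Maximal Cohen–Macaulay modules, countable Cohen–Macaulay type and the dimension of a
subcategory of modules (Dao–Takahashi). -/

set_option autoImplicit false

universe u

namespace Pool.Agent.H661R3.DC

open IsLocalRing

/-- `M` is maximal Cohen–Macaulay over `R`: it is finitely generated and for every prime `p` there is
a weakly `M_p`-regular sequence in the maximal ideal of `R_p` whose length is the Krull dimension of
`R_p` (that is, `depth M_p ≥ dim R_p`, where the zero module has infinite depth). -/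
def IsMCM (R : Type) [CommRing R] (M : Type) [AddCommGroup M] [Module R M] : Prop :=
  Module.Finite R M ∧ ∀ (p : Ideal R) [p.IsPrime], ∃ rs : List (Localization.AtPrime p),
    (∀ r ∈ rs, r ∈ maximalIdeal (Localization.AtPrime p)) ∧
    (rs.length : WithBot ℕ∞) = ringKrullDim (Localization.AtPrime p) ∧
    RingTheory.Sequence.IsWeaklyRegular (LocalizedModule p.primeCompl M) rs

/-- `M` is indecomposable. -/
def Indec (R : Type) [CommRing R] (M : Type) [AddCommGroup M] [Module R M] : Prop :=
  Nontrivial M ∧ ∀ A B : Submodule R M, IsCompl A B → A = ⊥ ∨ B = ⊥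

/-- `R` has countable CM-representation type: there are only countably many isomorphism classes of
indecomposable maximal Cohen–Macaulay modules. -/
def CountableCMType (R : Type) [CommRing R] : Prop :=
  ∃ N : ℕ → ModuleCat.{0} R, ∀ (M : Type) [AddCommGroup M] [Module R M],
    IsMCM R M → Indec R M → ∃ n, Nonempty (M ≃ₗ[R] N n)

/-- Classes of `R`-modules. -/
abbrev Cls (R : Type) [CommRing R] : Type 1 := ModuleCat.{0} R → Prop

/-- The class of maximal Cohen–Macaulay modules. -/
def CM (R : Type) [CommRing R] : Cls R := fun M => IsMCM R M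

/-- `Z` is isomorphic to the first syzygy of `M` in a minimal free resolution: the kernel of a
surjection from a finitely generated free module whose kernel lies in `𝔪F`. -/
def IsSyz1 (R : Type) [CommRing R] [IsLocalRing R] (M Z : ModuleCat.{0} R) : Prop :=
  ∃ (n : ℕ) (f : (Fin n → R) →ₗ[R] M), Function.Surjective f ∧
    LinearMap.ker f ≤ maximalIdeal R • (⊤ : Submodule R (Fin n → R)) ∧
    Nonempty (Z ≃ₗ[R] LinearMap.ker f)

/-- `Z` is isomorphic to the `i`-th syzygy of `M` in its minimal free resolution. -/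
def IsSyz (R : Type) [CommRing R] [IsLocalRing R] : ℕ → ModuleCat.{0} R → ModuleCat.{0} R → Prop
  | 0, M, Z => Nonempty (Z ≃ₗ[R] M)
  | i + 1, M, Z => ∃ Y : ModuleCat.{0} R, IsSyz R i M Y ∧ IsSyz1 R Y Z

/-- `add`: direct summands of finite direct sums of modules in the class. -/
def addCls (R : Type) [CommRing R] (X : Cls R) : Cls R := fun M =>
  ∃ (n : ℕ) (F : Fin n → ModuleCat.{0} R) (N : ModuleCat.{0} R), (∀ i, X (F i)) ∧
    Nonempty ((M × N) ≃ₗ[R] (∀ i, F i))

/-- `[X] = add ({R} ∪ {Ω^i M : i ≥ 0, M ∈ X})`. -/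
def brk (R : Type) [CommRing R] [IsLocalRing R] (X : Cls R) : Cls R :=
  addCls R (fun Z => Nonempty (Z ≃ₗ[R] R) ∨ ∃ (i : ℕ) (M : ModuleCat.{0} R), X M ∧ IsSyz R i M Z)

/-- `X ∘ Y`: the modules `M` with an exact sequence `0 → A → M → B → 0`, `A ∈ X`, `B ∈ Y`. -/
def extCls (R : Type) [CommRing R] (X Y : Cls R) : Cls R := fun M =>
  ∃ (A B : ModuleCat.{0} R) (f : A →ₗ[R] M) (g : M →ₗ[R] B), X A ∧ Y B ∧
    Function.Injective f ∧ Function.Surjective g ∧ Function.Exact f g

/-- `[X]_0 = {0}`, `[X]_1 = [X]`, `[X]_r = [[X]_{r-1} ∘ [X]]`. -/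
def ball (R : Type) [CommRing R] [IsLocalRing R] (X : Cls R) : ℕ → Cls R
  | 0 => fun M => Subsingleton M
  | 1 => brk R X
  | r + 2 => brk R (extCls R (ball R X (r + 1)) (brk R X))

/-- The class of the modules isomorphic to `G`. -/
def single (R : Type) [CommRing R] (G : ModuleCat.{0} R) : Cls R := fun M => Nonempty (M ≃ₗ[R] G)

/-- The dimension of a class `X`: the infimum of the `n` such that `X = [G]_{n+1}` for some
`G ∈ X` (`⊤` if there is none). -/
noncomputable def dimCls (R : Type) [CommRing R] [IsLocalRing R] (X : Cls R) : ℕ∞ :=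
  sInf {d : ℕ∞ | ∃ n : ℕ, d = n ∧ ∃ G : ModuleCat.{0} R, X G ∧
    ∀ M : ModuleCat.{0} R, X M ↔ ball R (single R G) (n + 1) M}

end Pool.Agent.H661R3.DC
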