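import Pool.Agent.H661R3.DC.Defs

/-! Lifting up to `t^N` is preserved by the operations defining `[X]_r`. -/

set_option autoImplicit false

namespace Pool.Agent.H661R3.DC

open IsLocalRing

section
variable {R : Type} [CommRing R] (t : R)

/-- maps from `X` lift along surjections after multiplication by `t^N`. -/
def Lift (N : ℕ) (X : Type) [AddCommGroup X] [Module R X] : Prop :=
  ∀ (A B : Type) [AddCommGroup A] [Module R A] [AddCommGroup B] [Module R B] (p : A →ₗ[R] B)
    (_ : Function.Surjective p) (f : X →ₗ[R] B), ∃ s : X →ₗ[R] A, ∀ x, p (s x) = t ^ N • f x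

variable {t}
variable {X Y Z M : Type} [AddCommGroup X] [Module R X] [AddCommGroup Y] [Module R Y]
  [AddCommGroup Z] [Module R Z] [AddCommGroup M] [Module R M]

theorem Lift.mono {N N' : ℕ} (h : N ≤ N') (hX : Lift t N X) : Lift t N' X := by
  intro A B _ _ _ _ p hp f
  obtain ⟨s, hs⟩ := hX A B p hp f
  refine ⟨t ^ (N' - N) • s, fun x => ?_⟩
  rw [LinearMap.smul_apply, map_smul, hs, smul_smul, ← pow_add]
  congr 2; omega

theorem Lift.of_retract {N : ℕ} (i : X →ₗ[R] Y) (q : Y →ₗ[R] X) (h : ∀ x, q (i x) = x)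
    (hY : Lift t N Y) : Lift t N X := by
  intro A B _ _ _ _ p hp f
  obtain ⟨s, hs⟩ := hY A B p hp (f ∘ₗ q)
  refine ⟨s ∘ₗ i, fun x => ?_⟩
  rw [LinearMap.comp_apply, hs, LinearMap.comp_apply, h]

theorem Lift.of_equiv {N : ℕ} (e : X ≃ₗ[R] Y) (hY : Lift t N Y) : Lift t N X :=
  Lift.of_retract e.toLinearMap e.symm.toLinearMap (by simp) hY

theorem Lift.of_projective (N : ℕ) [Module.Projective R X] : Lift t N X := by
  apply Lift.mono (Nat.zero_le N)
  intro A B _ _ _ _ p hp f
  obtain ⟨s, hs⟩ := Module.projective_lifting_property p f hp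
  exact ⟨s, fun x => by rw [pow_zero, one_smul, ← hs]; rfl⟩

theorem Lift.pi {N n : ℕ} {F : Fin n → Type} [∀ i, AddCommGroup (F i)] [∀ i, Module R (F i)]
    (h : ∀ i, Lift t N (F i)) : Lift t N (∀ i, F i) := by
  intro A B _ _ _ _ p hp f
  choose s hs using fun i => h i A B p hp (f ∘ₗ LinearMap.single R F i)
  refine ⟨∑ i, s i ∘ₗ LinearMap.proj i, fun x => ?_⟩
  rw [LinearMap.sum_apply, map_sum]
  have : ∀ i, p ((s i ∘ₗ LinearMap.proj i) x) = t ^ N • f (LinearMap.single R F i (x i)) := by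
    intro i
    rw [LinearMap.comp_apply, hs, LinearMap.comp_apply]
    rfl
  rw [Finset.sum_congr rfl (fun i _ => this i), ← Finset.smul_sum, ← map_sum]
  congr 2
  exact LinearMap.sum_single_apply _ x

theorem Lift.ext {a b : ℕ} (j : X →ₗ[R] M) (π : M →ₗ[R] Y) (hj : Function.Injective j)
    (hπ : Function.Surjective π) (hex : Function.Exact j π) (hX : Lift t a X) (hY : Lift t b Y) :
    Lift t (a + b) M := by
  intro A B _ _ _ _ p hp f
  -- pull back
  let A' : Submodule R (A × M) := LinearMap.ker (p ∘ₗ LinearMap.fst R A M - f ∘ₗ LinearMap.snd R A M)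
  let q : A' →ₗ[R] M := LinearMap.snd R A M ∘ₗ A'.subtype
  have hq : Function.Surjective q := by
    intro m
    obtain ⟨y, hy⟩ := hp (f m)
    exact ⟨⟨(y, m), by simp [A', hy]⟩, rfl⟩
  have hpf : ∀ z : A', p (z : A × M).1 = f (q z) := by
    intro z
    have := LinearMap.mem_ker.1 z.2
    exact sub_eq_zero.1 this
  obtain ⟨sY, hsY⟩ := hY A' Y (π ∘ₗ q) (hπ.comp hq) LinearMap.id
  obtain ⟨sX, hsX⟩ := hX A' M q hq j
  -- h : M → X
  let g : M →ₗ[R] M := t ^ b • LinearMap.id - q ∘ₗ sY ∘ₗ π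
  have hg : ∀ m, g m ∈ LinearMap.range j := by
    intro m
    have : π (g m) = 0 := by
      have h1 := hsY (π m)
      simp only [LinearMap.comp_apply, LinearMap.id_apply] at h1
      simp [g, h1]
    exact (hex _).1 this
  let e := LinearEquiv.ofInjective j hj
  let h : M →ₗ[R] X := e.symm.toLinearMap ∘ₗ g.codRestrict _ hg
  have hjh : ∀ m, j (h m) = g m := by
    intro m
    have : e (h m) = ⟨g m, hg m⟩ := by
      show e (e.symm _) = _
      rw [LinearEquiv.apply_symm_apply]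
      rfl
    exact congrArg Subtype.val this
  let s' : M →ₗ[R] A' := sX ∘ₗ h + t ^ a • (sY ∘ₗ π)
  have hs' : ∀ m, q (s' m) = t ^ (a + b) • m := by
    intro m
    show q (sX (h m) + t ^ a • sY (π m)) = _
    rw [map_add, hsX, hjh, map_smul, ← smul_add]
    have : g m + q (sY (π m)) = t ^ b • m := by
      show t ^ b • m - q (sY (π m)) + q (sY (π m)) = t ^ b • m
      abel
    rw [this, smul_smul, ← pow_add]
  refine ⟨LinearMap.fst R A M ∘ₗ A'.subtype ∘ₗ s', fun m => ?_⟩
  have h1 := hpf (s' m)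
  rw [hs', map_smul] at h1
  exact h1

theorem Lift.syz {N : ℕ} (j : Z →ₗ[R] M) (π : M →ₗ[R] X) (hj : Function.Injective j)
    (hπ : Function.Surjective π) (hex : Function.Exact j π) [Module.Projective R M]
    (hX : Lift t N X) : Lift t N Z := by
  intro A B _ _ _ _ p hp f
  obtain ⟨s, hs⟩ := hX M X π hπ LinearMap.id
  let g : M →ₗ[R] M := t ^ N • LinearMap.id - s ∘ₗ π
  have hg : ∀ m, g m ∈ LinearMap.range j := by
    intro m
    have : π (g m) = 0 := by
      have h1 := hs (π m)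
      simp only [LinearMap.id_apply] at h1
      simp [g, h1]
    exact (hex _).1 this
  let e := LinearEquiv.ofInjective j hj
  let h : M →ₗ[R] Z := e.symm.toLinearMap ∘ₗ g.codRestrict _ hg
  have hjh : ∀ m, j (h m) = g m := by
    intro m
    have : e (h m) = ⟨g m, hg m⟩ := by
      show e (e.symm _) = _
      rw [LinearEquiv.apply_symm_apply]
      rfl
    exact congrArg Subtype.val this
  obtain ⟨h', hh'⟩ := Module.projective_lifting_property p (f ∘ₗ h) hp
  refine ⟨h' ∘ₗ j, fun z => ?_⟩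
  have h1 : p (h' (j z)) = f (h (j z)) := by
    rw [← LinearMap.comp_apply, hh']; rfl
  have h2 : h (j z) = t ^ N • z := by
    apply hj
    rw [hjh, map_smul]
    show t ^ N • j z - s (π (j z)) = _
    rw [(hex (j z)).2 ⟨z, rfl⟩, map_zero, sub_zero]
  rw [LinearMap.comp_apply, h1, h2, map_smul]

variable [IsLocalRing R]

theorem Lift.isSyz1 {N : ℕ} {M Z : ModuleCat.{0} R} (h : IsSyz1 R M Z) (hM : Lift t N M) :
    Lift t N Z := by
  obtain ⟨n, f, hf, -, ⟨e⟩⟩ := h
  refine Lift.of_equiv e ?_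
  exact Lift.syz (LinearMap.ker f).subtype f (Submodule.injective_subtype _) hf
    (LinearMap.exact_subtype_ker_map f) hM

theorem Lift.isSyz {N : ℕ} (i : ℕ) : ∀ {M Z : ModuleCat.{0} R}, IsSyz R i M Z → Lift t N M →
    Lift t N Z := by
  induction i with
  | zero =>
    rintro M Z ⟨e⟩ hM
    exact Lift.of_equiv e hM
  | succ i ih =>
    rintro M Z ⟨Y, h1, h2⟩ hM
    exact Lift.isSyz1 h2 (ih h1 hM)

theorem Lift.brk {N : ℕ} {X : Cls R} (hX : ∀ M : ModuleCat.{0} R, X M → Lift t N M)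
    (M : ModuleCat.{0} R) (hM : brk R X M) : Lift t N M := by
  obtain ⟨n, F, N', hF, ⟨e⟩⟩ := hM
  have h1 : Lift t N (∀ i, F i) := by
    apply Lift.pi
    intro i
    rcases hF i with ⟨⟨e'⟩⟩ | ⟨j, M', hM', hs⟩
    · exact Lift.of_equiv e' (Lift.of_projective N)
    · exact Lift.isSyz j hs (hX M' hM')
  have h2 : Lift t N (M × N') := Lift.of_equiv e h1
  exact Lift.of_retract (LinearMap.inl R M N') (LinearMap.fst R M N') (fun x => rfl) h2

theorem Lift.ball {N : ℕ} {X : Cls R} (hX : ∀ M : ModuleCat.{0} R, X M → Lift t N M) :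
    ∀ (r : ℕ) (M : ModuleCat.{0} R), ball R X r M → Lift t (r * N) M
  | 0, M, h => by
    have : Subsingleton M := h
    rw [zero_mul]
    exact Lift.of_projective 0
  | 1, M, h => by
    rw [one_mul]
    exact Lift.brk hX M h
  | r + 2, M, h => by
    refine Lift.brk ?_ M h
    rintro M' ⟨A, B, f, g, hA, hB, hf, hg, hex⟩
    have h1 := Lift.ball hX (r + 1) A hA
    have h2 := Lift.brk hX B hB
    have h3 := Lift.ext f g hf hg hex h1 h2
    have : (r + 1) * N + N = (r + 2) * N := by ring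
    rwa [this] at h3

/-- If no `t^N` works for all maximal Cohen–Macaulay modules, the dimension is infinite. -/
theorem dimCls_eq_top {C : Cls R} (h1 : ∀ G : ModuleCat.{0} R, C G → ∃ N, Lift t N G)
    (h2 : ∀ N, ∃ M : ModuleCat.{0} R, C M ∧ ¬ Lift t N M) : dimCls R C = ⊤ := by
  unfold dimCls
  rw [sInf_eq_top]
  rintro d ⟨n, rfl, G, hG, h⟩
  exfalso
  obtain ⟨N, hN⟩ := h1 G hG
  obtain ⟨M, hM, hM'⟩ := h2 ((n + 1) * N)
  apply hM'
  refine Lift.ball ?_ (n + 1) M ((h M).1 hM)
  rintro M' ⟨e⟩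
  exact Lift.of_equiv e hN

end

end Pool.Agent.H661R3.DC
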