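import Pool.Agent.H661R3.DC.Dim

/-! Torsion-free modules as lattices. -/

set_option autoImplicit false

namespace Pool.Agent.H661R3.DC

open Module

section
variable {R : Type} [CommRing R] [IsDomain R] {t : R}

theorem exists_emb (ht : t ≠ 0) (hpow : ∀ r : R, r ≠ 0 → ∃ n, r ∣ t ^ n)
    (M : Type) [AddCommGroup M] [Module R M] [Module.Finite R M]
    (htf : ∀ r : R, r ≠ 0 → ∀ m : M, r • m = 0 → m = 0) :
    ∃ (r c : ℕ) (ι : M →ₗ[R] (Fin r → R)) (f : Fin r → M), Function.Injective ι ∧
      ∀ i j, ι (f i) j = if i = j then t ^ c else 0 := by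
  classical
  obtain ⟨v, hv⟩ := exists_linearIndependent_of_le_finrank (R := R) (M := M) (n := finrank R M) le_rfl
  set N := Submodule.span R (Set.range v) with hN
  have h1 : finrank R (M ⧸ N) = 0 := by
    have h2 := Submodule.finrank_quotient_add_finrank N
    have h3 : finrank R N = finrank R M := by
      rw [hN, finrank_span_eq_card hv, Fintype.card_fin]
    omega
  have h4 : ∀ m : M, ∃ n, t ^ n • m ∈ N := by
    intro m
    obtain ⟨a, ha, ham⟩ := Module.finrank_eq_zero_iff.1 h1 (Submodule.Quotient.mk m)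
    rw [← Submodule.Quotient.mk_smul, Submodule.Quotient.mk_eq_zero] at ham
    obtain ⟨n, b, hb⟩ := hpow a ha
    refine ⟨n, ?_⟩
    rw [hb, mul_comm, mul_smul]
    exact N.smul_mem b ham
  obtain ⟨S, hS⟩ := Module.Finite.fg_top (R := R) (M := M)
  choose e he using h4
  set c := S.sup e with hc
  have h5 : ∀ m : M, t ^ c • m ∈ N := by
    intro m
    have : (⊤ : Submodule R M) ≤ N.comap (LinearMap.lsmul R M (t ^ c)) := by
      rw [← hS, Submodule.span_le]
      intro s hs
      show t ^ c • s ∈ N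
      have hle : e s ≤ c := Finset.le_sup hs
      obtain ⟨d, hd⟩ := Nat.exists_eq_add_of_le hle
      rw [hd, add_comm, pow_add, mul_smul]
      exact N.smul_mem _ (he s)
    exact this (Submodule.mem_top (x := m))
  let ρ : M →ₗ[R] N := (LinearMap.lsmul R M (t ^ c)).codRestrict N h5
  let ι : M →ₗ[R] (Fin (finrank R M) → R) :=
    (Finsupp.linearEquivFunOnFinite R R (Fin (finrank R M))).toLinearMap ∘ₗ hv.repr ∘ₗ ρ
  refine ⟨finrank R M, c, ι, v, ?_, ?_⟩
  · have i1 : Function.Injective (Finsupp.linearEquivFunOnFinite R R (Fin (finrank R M))) :=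
      LinearEquiv.injective _
    have i2 : Function.Injective hv.repr := LinearMap.ker_eq_bot.1 hv.repr_ker
    have i3 : Function.Injective ρ := by
      rw [injective_iff_map_eq_zero]
      intro m hm
      exact htf _ (pow_ne_zero c ht) m (congrArg Subtype.val hm)
    exact i1.comp (i2.comp i3)
  · intro i j
    have h6 : hv.repr (ρ (v i)) = Finsupp.single i (t ^ c) := by
      have h7 : ρ (v i) = t ^ c • (⟨v i, Submodule.subset_span ⟨i, rfl⟩⟩ : N) := rfl
      rw [h7, map_smul, hv.repr_eq_single i _ rfl, Finsupp.smul_single, smul_eq_mul, mul_one]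
    show (hv.repr (ρ (v i))) j = _
    rw [h6, Finsupp.single_apply]

theorem exists_lift (ht : t ≠ 0) (hpow : ∀ r : R, r ≠ 0 → ∃ n, r ∣ t ^ n)
    (M : Type) [AddCommGroup M] [Module R M] [Module.Finite R M]
    (htf : ∀ r : R, r ≠ 0 → ∀ m : M, r • m = 0 → m = 0) : ∃ N, Lift t N M := by
  classical
  obtain ⟨r, c, ι, f, hι, hf⟩ := exists_emb ht hpow M htf
  refine ⟨c, ?_⟩
  intro A B _ _ _ _ p hp g
  choose a ha using fun i => hp (g (f i))
  refine ⟨∑ i, (LinearMap.toSpanSingleton R A (a i)) ∘ₗ (LinearMap.proj i) ∘ₗ ι, fun x => ?_⟩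
  rw [LinearMap.sum_apply, map_sum]
  have h1 : ∀ i, p (((LinearMap.toSpanSingleton R A (a i)) ∘ₗ (LinearMap.proj i) ∘ₗ ι) x) =
      g (ι x i • f i) := by
    intro i
    rw [LinearMap.comp_apply, LinearMap.comp_apply, LinearMap.toSpanSingleton_apply, map_smul, ha,
      map_smul]
    rfl
  rw [Finset.sum_congr rfl (fun i _ => h1 i), ← map_sum, ← map_smul]
  congr 1
  apply hι
  rw [map_sum, map_smul]
  funext j
  rw [Finset.sum_apply, Pi.smul_apply, Finset.sum_eq_single j]
  · rw [map_smul, Pi.smul_apply, hf, if_pos rfl, smul_eq_mul, smul_eq_mul, mul_comm]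
  · intro i _ hij
    rw [map_smul, Pi.smul_apply, hf, if_neg hij, smul_zero]
  · intro h; exact absurd (Finset.mem_univ _) h

end

end Pool.Agent.H661R3.DC
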