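import Pool.Agent.H661R3.DC.Ring
import Pool.Agent.H661R3.DC.Emb

/-! The functional on the completed lattice. -/

set_option autoImplicit false

namespace Pool.Agent.H661R3.DC

open PowerSeries IsLocalRing

section
variable {k : Type} [Field k]

/-- the element `ε` -/
noncomputable def eB (k : Type) [Field k] : BB k := mkB 0 1

theorem fs_eB : fs k (eB k) = 0 := fs_mkB _ _

theorem sn_eB : sn (eB k) = 1 := sn_mkB _ _

theorem B_decomp (b : BB k) : b = inD k (fs k b) + inD k (sn b) * eB k := by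
  apply B_ext
  · rw [map_add, map_mul, fs_inD, fs_eB, mul_zero, add_zero]
  · rw [sn_add, sn_mul, sn_inD, fs_inD, sn_eB, sn_inD]; ring

theorem eB_mul (b : BB k) : eB k * b = inD k (fs k b) * eB k := by
  apply B_ext
  · rw [map_mul, map_mul, fs_eB, zero_mul, mul_zero]
  · rw [sn_mul, sn_mul, fs_eB, sn_eB, fs_inD, sn_inD]; ring

theorem smul_inD (d : PowerSeries k) (b : BB k) : d • b = inD k d * b := by
  rw [Algebra.smul_def]; rfl

theorem sn_inD_mul (d : PowerSeries k) (b : BB k) : sn (inD k d * b) = d * sn b := by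
  rw [sn_mul, fs_inD, sn_inD, zero_mul, add_zero]

theorem fs_inD_mul (d : PowerSeries k) (b : BB k) : fs k (inD k d * b) = d * fs k b := by
  rw [map_mul, fs_inD]

instance finite_BB : Module.Finite (PowerSeries k) (BB k) := by
  let F : (PowerSeries k × PowerSeries k) →ₗ[PowerSeries k] BB k :=
    { toFun := fun p => mkB p.1 p.2
      map_add' := by
        intro p q
        apply B_ext
        · rw [map_add, fs_mkB, fs_mkB, fs_mkB]; rfl
        · rw [sn_add, sn_mkB, sn_mkB, sn_mkB]; rfl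
      map_smul' := by
        intro d p
        rw [smul_inD]
        apply B_ext
        · rw [RingHom.id_apply, fs_inD_mul, fs_mkB, fs_mkB]; rfl
        · rw [RingHom.id_apply, sn_inD_mul, sn_mkB, sn_mkB]; rfl }
  apply Module.Finite.of_surjective F
  intro b
  exact ⟨(fs k b, sn b), B_ext (fs_mkB _ _) (sn_mkB _ _)⟩

instance torsionFree_BB : Module.IsTorsionFree (PowerSeries k) (BB k) := by
  have hinj : Function.Injective (fun b : BB k => ((fs k b, sn b) : PowerSeries k × PowerSeries k)) := by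
    intro a b h
    exact B_ext (congrArg Prod.fst h) (congrArg Prod.snd h)
  apply hinj.moduleIsTorsionFree
  intro d b
  rw [smul_inD, fs_inD_mul, sn_inD_mul]
  rfl

/-- functionals detecting elements outside `XN`. -/
theorem exists_functional (N : Type) [AddCommGroup N] [Module (PowerSeries k) N]
    [Module.Free (PowerSeries k) N] [Module.Finite (PowerSeries k) N] (z : N)
    (hz : ∀ y : N, z ≠ (X : PowerSeries k) • y) :
    ∃ l : N →ₗ[PowerSeries k] PowerSeries k, constantCoeff (l z) ≠ 0 := by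
  classical
  let b := Module.Free.chooseBasis (PowerSeries k) N
  by_contra hcon
  push Not at hcon
  have h1 : ∀ i, (X : PowerSeries k) ∣ b.repr z i := by
    intro i
    rw [X_dvd_iff]
    exact hcon (b.coord i)
  choose c hc using h1
  apply hz (∑ i, c i • b i)
  rw [Finset.smul_sum]
  conv_lhs => rw [← b.sum_repr z]
  refine Finset.sum_congr rfl (fun i _ => ?_)
  rw [hc i, mul_smul]

variable {σ : PowerSeries k} {M : Type} [AddCommGroup M] [Module (RR σ) M] {r : ℕ}

/-- The lattice map into `B^r`. -/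
noncomputable def toB (ι : M →ₗ[RR σ] (Fin r → RR σ)) (m : M) : Fin r → BB k := fun i => (ι m i : BB k)

/-- The completed lattice. -/
noncomputable def Hat (ι : M →ₗ[RR σ] (Fin r → RR σ)) : Submodule (BB k) (Fin r → BB k) :=
  Submodule.span (BB k) (Set.range (toB ι))

theorem toB_mem (ι : M →ₗ[RR σ] (Fin r → RR σ)) (m : M) : toB ι m ∈ Hat ι :=
  Submodule.subset_span ⟨m, rfl⟩

theorem toB_add (ι : M →ₗ[RR σ] (Fin r → RR σ)) (m m' : M) :
    toB ι (m + m') = toB ι m + toB ι m' := by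
  funext i
  simp [toB]

theorem toB_smul (ι : M →ₗ[RR σ] (Fin r → RR σ)) (x : RR σ) (m : M) :
    toB ι (x • m) = (x : BB k) • toB ι m := by
  funext i
  simp [toB]

theorem approx_hat (ι : M →ₗ[RR σ] (Fin r → RR σ)) (N : ℕ) (y : Fin r → BB k) (hy : y ∈ Hat ι) :
    ∃ m : M, ∀ i, tB k ^ N ∣ toB ι m i - y i := by
  induction hy using Submodule.span_induction with
  | mem y hy =>
    obtain ⟨m, rfl⟩ := hy
    exact ⟨m, fun i => by rw [sub_self]; exact dvd_zero _⟩
  | zero => exact ⟨0, fun i => by simp [toB]⟩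
  | add y y' _ _ h h' =>
    obtain ⟨m, hm⟩ := h
    obtain ⟨m', hm'⟩ := h'
    refine ⟨m + m', fun i => ?_⟩
    have : toB ι (m + m') i - (y + y') i = (toB ι m i - y i) + (toB ι m' i - y' i) := by
      rw [toB_add, Pi.add_apply, Pi.add_apply]; ring
    rw [this]
    exact dvd_add (hm i) (hm' i)
  | smul b y _ h =>
    obtain ⟨m, hm⟩ := h
    obtain ⟨x, hx⟩ := dense σ b N
    refine ⟨x • m, fun i => ?_⟩
    have : toB ι (x • m) i - (b • y) i = (x : BB k) * (toB ι m i - y i) + ((x : BB k) - b) * y i := by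
      rw [toB_smul, Pi.smul_apply, Pi.smul_apply, smul_eq_mul, smul_eq_mul]; ring
    rw [this]
    exact dvd_add (Dvd.dvd.mul_left (hm i) _) (Dvd.dvd.mul_right hx _)

theorem hat_not_dvd (hσ : Trans σ) (ι : M →ₗ[RR σ] (Fin r → RR σ)) (hι : Function.Injective ι)
    {c : ℕ} (f : Fin r → M) (hf : ∀ i j, ι (f i) j = if i = j then tR σ ^ c else 0)
    (z : M) (hz : ∀ m, z ≠ tR σ • m) (y : Fin r → BB k) (hy : y ∈ Hat ι) :
    toB ι z ≠ tB k • y := by
  intro h
  obtain ⟨m, hm⟩ := approx_hat ι c y hy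
  choose b hb using hm
  have hbR : ∀ i, b i ∈ RR σ := by
    intro i
    apply mem_of_mul hσ (x := tR σ ^ (c + 1)) (y := ι (tR σ • m) i - ι z i) (tR_pow_ne_zero _)
    have h1 : (ι z i : BB k) = tB k * y i := congrFun h i
    have h2 : (ι (tR σ • m) i : BB k) = tB k * toB ι m i := by
      rw [map_smul, Pi.smul_apply, smul_eq_mul, Subring.coe_mul, coe_tR]; rfl
    rw [AddSubgroupClass.coe_sub, h1, h2, coe_tR_pow, ← mul_sub, hb i]
    ring
  apply hz (m - ∑ i, (⟨b i, hbR i⟩ : RR σ) • f i)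
  apply hι
  rw [map_smul, map_sub, map_sum]
  funext j
  apply Subtype.ext
  have h3 : ((∑ i, ι ((⟨b i, hbR i⟩ : RR σ) • f i)) j) = ⟨b j, hbR j⟩ * tR σ ^ c := by
    rw [Finset.sum_apply, Finset.sum_eq_single j]
    · rw [map_smul, Pi.smul_apply, hf, if_pos rfl, smul_eq_mul]
    · intro i _ hij
      rw [map_smul, Pi.smul_apply, hf, if_neg hij, smul_zero]
    · intro h; exact absurd (Finset.mem_univ _) h
  rw [Pi.smul_apply, Pi.sub_apply, h3, smul_eq_mul, Subring.coe_mul, AddSubgroupClass.coe_sub,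
    Subring.coe_mul, coe_tR, coe_tR_pow]
  have h1 : (ι z j : BB k) = tB k * y j := congrFun h j
  have h4 := hb j
  show (ι z j : BB k) = tB k * (toB ι m j - b j * tB k ^ c)
  rw [h1]
  congr 1
  linear_combination -h4

/-- A `B`-linear functional on the completed lattice. -/
theorem exists_H (hσ : Trans σ) (ι : M →ₗ[RR σ] (Fin r → RR σ)) (hι : Function.Injective ι)
    {c : ℕ} (f : Fin r → M) (hf : ∀ i j, ι (f i) j = if i = j then tR σ ^ c else 0)
    (z : M) (hz : ∀ m, z ≠ tR σ • m) :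
    ∃ H : Hat ι →ₗ[BB k] BB k, constantCoeff (sn (H ⟨toB ι z, toB_mem ι z⟩)) ≠ 0 := by
  let N := (Hat ι).restrictScalars (PowerSeries k)
  have hN : Module.Finite (PowerSeries k) N := inferInstance
  have hNf : Module.Free (PowerSeries k) N := inferInstance
  obtain ⟨l, hl⟩ := exists_functional (k := k) N ⟨toB ι z, toB_mem ι z⟩ (by
    rintro ⟨y, hy⟩ h
    apply hat_not_dvd hσ ι hι f hf z hz y hy
    have h1 := congrArg Subtype.val h
    rw [Submodule.coe_smul] at h1
    simp only at h1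
    rw [h1]
    funext i
    rw [Pi.smul_apply, Pi.smul_apply, smul_inD]; rfl)
  refine ⟨{ toFun := fun y => mkB (l ⟨eB k • y.1, (Hat ι).smul_mem _ y.2⟩) (l ⟨y.1, y.2⟩)
            map_add' := ?_
            map_smul' := ?_ }, ?_⟩
  · rintro ⟨x, hx⟩ ⟨y, hy⟩
    have h1 : (⟨eB k • (x + y), (Hat ι).smul_mem _ ((Hat ι).add_mem hx hy)⟩ : N) =
      ⟨eB k • x, (Hat ι).smul_mem _ hx⟩ + ⟨eB k • y, (Hat ι).smul_mem _ hy⟩ :=
        Subtype.ext (smul_add _ _ _)
    have h2 : (⟨x + y, (Hat ι).add_mem hx hy⟩ : N) = ⟨x, hx⟩ + ⟨y, hy⟩ := rfl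
    apply B_ext
    · rw [map_add, fs_mkB, fs_mkB, fs_mkB, ← map_add, ← h1]; rfl
    · rw [sn_add, sn_mkB, sn_mkB, sn_mkB, ← map_add, ← h2]; rfl
  · rintro b ⟨y, hy⟩
    have h1 : (⟨eB k • (b • y), (Hat ι).smul_mem _ ((Hat ι).smul_mem b hy)⟩ : N) =
      fs k b • ⟨eB k • y, (Hat ι).smul_mem _ hy⟩ := by
      apply Subtype.ext
      funext i
      show eB k * (b * y i) = fs k b • (eB k * y i)
      rw [smul_inD, ← mul_assoc, eB_mul, mul_assoc]
    have h2 : (⟨b • y, (Hat ι).smul_mem b hy⟩ : N) =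
      fs k b • ⟨y, hy⟩ + sn b • ⟨eB k • y, (Hat ι).smul_mem _ hy⟩ := by
      apply Subtype.ext
      funext i
      show b * y i = fs k b • y i + sn b • (eB k * y i)
      rw [smul_inD, smul_inD]
      conv_lhs => rw [B_decomp b]
      ring
    apply B_ext
    · rw [RingHom.id_apply, smul_eq_mul, map_mul, fs_mkB, fs_mkB]
      show l (⟨eB k • (b • y), (Hat ι).smul_mem _ ((Hat ι).smul_mem b hy)⟩ : N) = _
      rw [h1, map_smul, smul_eq_mul]
    · rw [RingHom.id_apply, smul_eq_mul, sn_mul, sn_mkB, fs_mkB, sn_mkB]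
      show l (⟨b • y, (Hat ι).smul_mem b hy⟩ : N) = _
      rw [h2, map_add, map_smul, map_smul, smul_eq_mul, smul_eq_mul]
  · show constantCoeff (sn (mkB _ _)) ≠ 0
    rw [sn_mkB]
    exact hl

end

end Pool.Agent.H661R3.DC
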