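import Pool.Agent.H661R3.DC.Defs

/-! Maximal Cohen–Macaulay modules over a one-dimensional local domain. -/

set_option autoImplicit false

namespace Pool.Agent.H661R3.DC

open IsLocalRing

section
variable {R : Type} [CommRing R] [IsDomain R] [IsLocalRing R]

theorem dim_loc_max (hdim : ringKrullDim R = 1) :
    ringKrullDim (Localization.AtPrime (maximalIdeal R)) = 1 := by
  rw [IsLocalization.AtPrime.ringKrullDim_eq_height (maximalIdeal R),
    IsLocalRing.maximalIdeal_height_eq_ringKrullDim, hdim]

theorem isMCM_of_torsionFree (hdim : ringKrullDim R = 1) {t : R} (ht : t ∈ maximalIdeal R)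
    (ht0 : t ≠ 0) (hprimes : ∀ P : Ideal R, P.IsPrime → P = ⊥ ∨ P = maximalIdeal R)
    (M : Type) [AddCommGroup M] [Module R M] [Module.Finite R M]
    (htf : ∀ r : R, r ≠ 0 → ∀ m : M, r • m = 0 → m = 0) : IsMCM R M := by
  refine ⟨inferInstance, ?_⟩
  intro p hp
  rcases hprimes p hp with rfl | rfl
  · refine ⟨[], by simp, ?_, RingTheory.Sequence.IsWeaklyRegular.nil _ _⟩
    rw [IsLocalization.AtPrime.ringKrullDim_eq_height (⊥ : Ideal R) (Localization.AtPrime (⊥ : Ideal R)),
      Ideal.height_bot]
    rfl
  · refine ⟨[algebraMap R _ t], ?_, ?_, ?_⟩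
    · intro r hr
      rw [List.mem_singleton] at hr
      rw [hr, IsLocalization.AtPrime.to_map_mem_maximal_iff _ (maximalIdeal R)]
      exact ht
    · rw [dim_loc_max hdim]; rfl
    · rw [RingTheory.Sequence.isWeaklyRegular_singleton_iff,
        isSMulRegular_iff_right_eq_zero_of_smul]
      intro x hx
      induction x using LocalizedModule.induction_on with
      | h m s =>
        rw [algebraMap_smul, LocalizedModule.smul'_mk, ← LocalizedModule.zero_mk s,
          LocalizedModule.mk_eq] at hx
        obtain ⟨u, hu⟩ := hx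
        rw [smul_zero, smul_zero] at hu
        have hs0 : (s : R) ≠ 0 := by
          intro h0
          apply s.2
          rw [h0]
          exact Ideal.zero_mem _
        have hu0 : (u : R) ≠ 0 := by
          intro h0
          apply u.2
          rw [h0]
          exact Ideal.zero_mem _
        have h1 := htf _ ht0 _ (htf _ hs0 _ (htf _ hu0 _ hu))
        rw [h1, LocalizedModule.zero_mk]

theorem torsionFree_of_isMCM (hdim : ringKrullDim R = 1) {t : R}
    (hsq : ∀ r ∈ maximalIdeal R, ∃ k, t ∣ r ^ k) (hpow : ∀ r : R, r ≠ 0 → ∃ n, r ∣ t ^ n)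
    (M : Type) [AddCommGroup M] [Module R M] (h : IsMCM R M) :
    ∀ r : R, r ≠ 0 → ∀ m : M, r • m = 0 → m = 0 := by
  obtain ⟨rs, h1, h2, h3⟩ := h.2 (maximalIdeal R)
  rw [dim_loc_max hdim] at h2
  have h4 : rs.length = 1 := by exact_mod_cast h2
  obtain ⟨x, rfl⟩ := List.length_eq_one_iff.1 h4
  have hx := h1 x (by simp)
  rw [RingTheory.Sequence.isWeaklyRegular_singleton_iff,
    isSMulRegular_iff_right_eq_zero_of_smul] at h3
  intro r hr m hm
  obtain ⟨⟨a, s⟩, has⟩ := IsLocalization.surj (maximalIdeal R).primeCompl x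
  simp only at has
  have ha : a ∈ maximalIdeal R := by
    rw [← IsLocalization.AtPrime.to_map_mem_maximal_iff (Localization.AtPrime (maximalIdeal R))
      (maximalIdeal R), ← has]
    exact Ideal.mul_mem_right _ _ hx
  obtain ⟨n, c, hn⟩ := hpow r hr
  obtain ⟨k, d, hk⟩ := hsq a ha
  have h5 : a ^ (k * n) • m = 0 := by
    have : a ^ (k * n) = (d ^ n * c) * r := by rw [pow_mul, hk, mul_pow, hn]; ring
    rw [this, mul_smul, hm, smul_zero]
  -- iterate
  have h6 : ∀ (j : ℕ) (y : LocalizedModule (maximalIdeal R).primeCompl M), x ^ j • y = 0 → y = 0 := by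
    intro j
    induction j with
    | zero => intro y hy; simpa using hy
    | succ j ih =>
      intro y hy
      apply ih
      apply h3
      rw [smul_smul, ← pow_succ']; exact hy
  have h7 : (LocalizedModule.mkLinearMap (maximalIdeal R).primeCompl M) m = 0 := by
    apply h6 (k * n)
    have h8 : (algebraMap R (Localization.AtPrime (maximalIdeal R)) s) ^ (k * n) * x ^ (k * n) =
        algebraMap R _ (a ^ (k * n)) := by
      rw [← mul_pow, mul_comm, has, map_pow]
    have h9 : IsUnit ((algebraMap R (Localization.AtPrime (maximalIdeal R)) s) ^ (k * n)) :=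
      (IsLocalization.map_units _ s).pow _
    have h10 : ((algebraMap R (Localization.AtPrime (maximalIdeal R)) s) ^ (k * n)) •
        (x ^ (k * n) • (LocalizedModule.mkLinearMap (maximalIdeal R).primeCompl M) m) = 0 := by
      rw [smul_smul, h8, algebraMap_smul, ← map_smul, h5, map_zero]
    exact (h9.smul_eq_zero).1 h10
  rw [LocalizedModule.mkLinearMap_apply, ← LocalizedModule.zero_mk 1, LocalizedModule.mk_eq] at h7
  obtain ⟨u, hu⟩ := h7
  rw [smul_zero, smul_zero, one_smul] at hu
  have hu1 : IsUnit (u : R) := by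
    by_contra hcon
    exact u.2 hcon
  exact (hu1.smul_eq_zero).1 hu

end

end Pool.Agent.H661R3.DC
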