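import Mathlib

/-! A one-dimensional local domain with completion `k[[t]][ε]`. -/

set_option autoImplicit false

namespace Pool.Agent.H661R3.DC

open PowerSeries IsLocalRing

/-- `k[[t]][ε]`. -/
abbrev BB (k : Type) [Field k] := DualNumber (PowerSeries k)

section
variable {k : Type} [Field k]

/-- first coordinate -/
noncomputable def fs (k : Type) [Field k] : BB k →+* PowerSeries k :=
  (TrivSqZeroExt.fstHom (PowerSeries k) (PowerSeries k) (PowerSeries k)).toRingHom

theorem fs_apply (b : BB k) : fs k b = TrivSqZeroExt.fst b := rfl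

/-- second coordinate -/
noncomputable def sn (b : BB k) : PowerSeries k := TrivSqZeroExt.snd b

theorem sn_mul (a b : BB k) : sn (a * b) = fs k a * sn b + sn a * fs k b :=
  DualNumber.snd_mul a b

theorem sn_add (a b : BB k) : sn (a + b) = sn a + sn b := rfl

theorem sn_sub (a b : BB k) : sn (a - b) = sn a - sn b := rfl

theorem sn_neg (a : BB k) : sn (-a) = - sn a := rfl

/-- The pair with given coordinates. -/
noncomputable def mkB (a b : PowerSeries k) : BB k := TrivSqZeroExt.inl a + TrivSqZeroExt.inr b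

theorem fs_mkB (a b : PowerSeries k) : fs k (mkB a b) = a := by simp [fs_apply, mkB]

theorem sn_mkB (a b : PowerSeries k) : sn (mkB a b) = b := by simp [sn, mkB]

theorem B_ext {a b : BB k} (h1 : fs k a = fs k b) (h2 : sn a = sn b) : a = b :=
  TrivSqZeroExt.ext h1 h2

/-- `D → D[ε]`. -/
noncomputable def inD (k : Type) [Field k] : PowerSeries k →+* BB k :=
  TrivSqZeroExt.inlHom (PowerSeries k) (PowerSeries k)

theorem fs_inD (a : PowerSeries k) : fs k (inD k a) = a := rfl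

theorem sn_inD (a : PowerSeries k) : sn (inD k a) = 0 := rfl

/-- the element `t` -/
noncomputable def tB (k : Type) [Field k] : BB k := inD k X

theorem tB_pow (n : ℕ) : tB k ^ n = inD k (X ^ n) := by rw [map_pow]; rfl

theorem fs_tB_pow_mul (n : ℕ) (b : BB k) : fs k (tB k ^ n * b) = X ^ n * fs k b := by
  rw [map_mul, tB_pow, fs_inD]

theorem sn_tB_pow_mul (n : ℕ) (b : BB k) : sn (tB k ^ n * b) = X ^ n * sn b := by
  rw [sn_mul, tB_pow, fs_inD, sn_inD]; ring

theorem tB_pow_dvd_iff (n : ℕ) (b : BB k) : tB k ^ n ∣ b ↔ X ^ n ∣ fs k b ∧ X ^ n ∣ sn b := by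
  constructor
  · rintro ⟨c, rfl⟩
    rw [fs_tB_pow_mul, sn_tB_pow_mul]
    exact ⟨dvd_mul_right _ _, dvd_mul_right _ _⟩
  · rintro ⟨⟨c, hc⟩, ⟨d, hd⟩⟩
    refine ⟨mkB c d, B_ext ?_ ?_⟩
    · rw [fs_tB_pow_mul, fs_mkB, hc]
    · rw [sn_tB_pow_mul, sn_mkB, hd]

theorem B_reg {b c : BB k} (hb : fs k b ≠ 0) (h : b * c = 0) : c = 0 := by
  have h0 : fs k b * fs k c = 0 := by rw [← map_mul, h, map_zero]
  have hc : fs k c = 0 := (mul_eq_zero.1 h0).resolve_left hb
  have h1 : fs k b * sn c + sn b * fs k c = 0 := by rw [← sn_mul, h]; rfl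
  rw [hc, mul_zero, add_zero] at h1
  exact B_ext (by rw [hc, map_zero]) ((mul_eq_zero.1 h1).resolve_left hb)

theorem tB_reg {n : ℕ} {b c : BB k} (h : tB k ^ n * b = tB k ^ n * c) : b = c := by
  have : b - c = 0 := by
    apply B_reg (b := tB k ^ n)
    · rw [tB_pow, fs_inD]; exact pow_ne_zero _ X_ne_zero
    · rw [mul_sub, h, sub_self]
  exact sub_eq_zero.1 this

end

variable {k : Type} [Field k] (σ : PowerSeries k)

/-- `k[t][s] → D[ε]`, `s ↦ σ + ε`. -/
noncomputable def psi : Polynomial (Polynomial k) →+* BB k :=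
  Polynomial.eval₂RingHom ((inD k).comp Polynomial.coeToPowerSeries.ringHom) (mkB σ 1)

theorem psi_C (a : Polynomial k) : psi σ (Polynomial.C a) = inD k (a : PowerSeries k) := by
  simp [psi]

theorem psi_X : psi σ Polynomial.X = mkB σ 1 := by simp [psi]

theorem fs_psi (p : Polynomial (Polynomial k)) :
    fs k (psi σ p) = Polynomial.eval₂ Polynomial.coeToPowerSeries.ringHom σ p := by
  have : (fs k).comp (psi σ) = Polynomial.eval₂RingHom Polynomial.coeToPowerSeries.ringHom σ := by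
    apply Polynomial.ringHom_ext
    · intro a
      rw [RingHom.comp_apply, psi_C, fs_inD]
      simp
    · rw [RingHom.comp_apply, psi_X, fs_mkB]
      simp
  exact congrArg (fun f : Polynomial (Polynomial k) →+* PowerSeries k => f p) this

/-- The ring `R`. -/
noncomputable def RR : Subring (BB k) where
  carrier := {b | ∃ p q : Polynomial (Polynomial k), q ≠ 0 ∧ psi σ q * b = psi σ p}
  mul_mem' := by
    rintro a b ⟨p, q, hq, h⟩ ⟨p', q', hq', h'⟩
    refine ⟨p * p', q * q', mul_ne_zero hq hq', ?_⟩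
    rw [map_mul, map_mul, ← h, ← h']; ring
  one_mem' := ⟨1, 1, one_ne_zero, by simp⟩
  add_mem' := by
    rintro a b ⟨p, q, hq, h⟩ ⟨p', q', hq', h'⟩
    refine ⟨p * q' + p' * q, q * q', mul_ne_zero hq hq', ?_⟩
    rw [map_add, map_mul, map_mul, map_mul, ← h, ← h']; ring
  zero_mem' := ⟨0, 1, one_ne_zero, by simp⟩
  neg_mem' := by
    rintro a ⟨p, q, hq, h⟩
    refine ⟨-p, q, hq, ?_⟩
    rw [map_neg, ← h]; ring

theorem psi_mem (p : Polynomial (Polynomial k)) : psi σ p ∈ RR σ := ⟨p, 1, one_ne_zero, by simp⟩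

/-- `k[t][s] → R`. -/
noncomputable def psiR : Polynomial (Polynomial k) →+* RR σ :=
  (psi σ).codRestrict (RR σ) (psi_mem σ)

theorem coe_psiR (p : Polynomial (Polynomial k)) : ((psiR σ p : RR σ) : BB k) = psi σ p := rfl

/-- The element `t` of `R`. -/
noncomputable def tR : RR σ := psiR σ (Polynomial.C Polynomial.X)

theorem coe_tR : ((tR σ : RR σ) : BB k) = tB k := by
  rw [tR, coe_psiR, psi_C, Polynomial.coe_X]; rfl

theorem coe_tR_pow (n : ℕ) : ((tR σ ^ n : RR σ) : BB k) = tB k ^ n := by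
  rw [Subring.coe_pow, coe_tR]

/-- The elements `w_n`. -/
noncomputable def wR (n : ℕ) : RR σ := psiR σ (Polynomial.X - Polynomial.C (trunc n σ))

theorem fs_wR (n : ℕ) : fs k (wR σ n : BB k) = σ - (trunc n σ : PowerSeries k) := by
  rw [wR, coe_psiR, map_sub, map_sub, psi_C, psi_X, fs_inD, fs_mkB]

theorem sn_wR (n : ℕ) : sn (wR σ n : BB k) = 1 := by
  rw [wR, coe_psiR, map_sub, sn_sub, psi_C, psi_X, sn_inD, sn_mkB, sub_zero]

theorem X_pow_dvd_sub_trunc (f : PowerSeries k) (n : ℕ) : X ^ n ∣ f - (trunc n f : PowerSeries k) := by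
  rw [X_pow_dvd_iff]
  intro m hm
  rw [map_sub, Polynomial.coeff_coe, coeff_trunc, if_pos hm, sub_self]

theorem dvd_fs_wR (n : ℕ) : X ^ n ∣ fs k (wR σ n : BB k) := by
  rw [fs_wR]; exact X_pow_dvd_sub_trunc σ n

/-- density of `R`. -/
theorem dense (b : BB k) (n : ℕ) : ∃ r : RR σ, tB k ^ n ∣ (r : BB k) - b := by
  refine ⟨psiR σ (Polynomial.C (trunc n (fs k b))) +
    psiR σ (Polynomial.C (trunc n (sn b))) * wR σ n, ?_⟩
  rw [tB_pow_dvd_iff, Subring.coe_add, Subring.coe_mul, coe_psiR, coe_psiR, psi_C, psi_C]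
  constructor
  · rw [map_sub, map_add, map_mul, fs_inD, fs_inD]
    have h1 := X_pow_dvd_sub_trunc (fs k b) n
    have h2 := dvd_fs_wR σ n
    have : (trunc n (fs k b) : PowerSeries k) + (trunc n (sn b) : PowerSeries k) *
        fs k (wR σ n : BB k) - fs k b = (trunc n (sn b) : PowerSeries k) *
        fs k (wR σ n : BB k) - (fs k b - (trunc n (fs k b) : PowerSeries k)) := by ring
    rw [this]
    exact dvd_sub (Dvd.dvd.mul_left h2 _) h1
  · rw [sn_sub, sn_add, sn_mul, sn_inD, sn_inD, fs_inD, sn_wR]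
    have h1 := X_pow_dvd_sub_trunc (sn b) n
    have : 0 + ((trunc n (sn b) : PowerSeries k) * 1 + 0 * fs k (wR σ n : BB k)) - sn b =
      - (sn b - (trunc n (sn b) : PowerSeries k)) := by ring
    rw [this]
    exact (dvd_neg).2 h1

/-- The transcendence hypothesis. -/
def Trans : Prop := ∀ p : Polynomial (Polynomial k), p ≠ 0 →
  Polynomial.eval₂ Polynomial.coeToPowerSeries.ringHom σ p ≠ 0

variable {σ}

theorem fs_psi_ne (hσ : Trans σ) {p : Polynomial (Polynomial k)} (hp : p ≠ 0) :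
    fs k (psi σ p) ≠ 0 := by rw [fs_psi]; exact hσ p hp

theorem eq_zero_of_fs (hσ : Trans σ) {r : RR σ} (h : fs k (r : BB k) = 0) : r = 0 := by
  obtain ⟨p, q, hq, h1⟩ := r.2
  have hp : p = 0 := by
    by_contra hp
    apply fs_psi_ne hσ hp
    rw [← h1, map_mul, h, mul_zero]
  rw [hp, map_zero] at h1
  exact Subtype.ext (B_reg (fs_psi_ne hσ hq) h1)

theorem fs_ne_zero (hσ : Trans σ) {r : RR σ} (h : r ≠ 0) : fs k (r : BB k) ≠ 0 :=
  fun h0 => h (eq_zero_of_fs hσ h0)

theorem isDomain_RR (hσ : Trans σ) : IsDomain (RR σ) := by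
  have hinj : Function.Injective ((fs k).comp (RR σ).subtype) := by
    rw [injective_iff_map_eq_zero]
    intro r hr
    exact eq_zero_of_fs hσ hr
  exact hinj.isDomain _

/-- divisibility in `R` is divisibility in `B`. -/
theorem mem_of_mul (hσ : Trans σ) {x y : RR σ} (hx : x ≠ 0) {b : BB k}
    (h : (x : BB k) * b = (y : BB k)) : b ∈ RR σ := by
  obtain ⟨p, q, hq, h1⟩ := x.2
  obtain ⟨p', q', hq', h2⟩ := y.2
  have hp : p ≠ 0 := by
    rintro rfl
    rw [map_zero] at h1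
    exact hx (Subtype.ext (B_reg (fs_psi_ne hσ hq) h1))
  refine ⟨p' * q, p * q', mul_ne_zero hp hq', ?_⟩
  rw [map_mul, map_mul, ← h1, ← h2, ← h]
  ring

theorem dvd_of_dvd (hσ : Trans σ) {x y : RR σ} (hx : x ≠ 0) (h : (x : BB k) ∣ (y : BB k)) : x ∣ y := by
  obtain ⟨b, hb⟩ := h
  exact ⟨⟨b, mem_of_mul hσ hx hb.symm⟩, Subtype.ext hb⟩

theorem tR_ne_zero : tR σ ≠ 0 := by
  intro h
  have h1 : fs k ((tR σ : RR σ) : BB k) = 0 := by rw [h]; rfl
  rw [coe_tR] at h1
  exact X_ne_zero h1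

theorem tR_pow_ne_zero (n : ℕ) : tR σ ^ n ≠ 0 := by
  intro h
  have h1 : fs k ((tR σ ^ n : RR σ) : BB k) = 0 := by rw [h]; rfl
  rw [coe_tR_pow, tB_pow, fs_inD] at h1
  exact pow_ne_zero n X_ne_zero h1

theorem tR_pow_dvd_iff (hσ : Trans σ) (n : ℕ) (r : RR σ) :
    tR σ ^ n ∣ r ↔ X ^ n ∣ fs k (r : BB k) ∧ X ^ n ∣ sn (r : BB k) := by
  rw [← tB_pow_dvd_iff]
  constructor
  · rintro ⟨c, rfl⟩
    rw [Subring.coe_mul, coe_tR_pow]
    exact dvd_mul_right _ _
  · intro h
    apply dvd_of_dvd hσ (tR_pow_ne_zero n)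
    rw [coe_tR_pow]; exact h

/-- inverse in `B` up to a power of `t`. -/
theorem exists_dvd_pow_B {b : BB k} (hb : fs k b ≠ 0) : ∃ n, b ∣ tB k ^ n := by
  obtain ⟨n, u, hu⟩ : ∃ (n : ℕ) (u : (PowerSeries k)ˣ), fs k b = X ^ n * (u : PowerSeries k) := by
    obtain ⟨n, u, hu⟩ := IsDiscreteValuationRing.eq_unit_mul_pow_irreducible hb PowerSeries.X_irreducible
    exact ⟨n, u, by rw [hu, mul_comm]⟩
  obtain ⟨v, hv⟩ : ∃ v : PowerSeries k, (u : PowerSeries k) * v = 1 := ⟨_, u.mul_inv⟩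
  refine ⟨2 * n, mkB ((X : PowerSeries k) ^ n * v) (- sn b * v ^ 2), ?_⟩
  apply B_ext
  · rw [tB_pow, fs_inD, map_mul, fs_mkB, hu]
    have : X ^ n * (u : PowerSeries k) * (X ^ n * v) = X ^ n * X ^ n * ((u : PowerSeries k) * v) := by
      ring
    rw [this, hv]; ring
  · rw [tB_pow, sn_inD, sn_mul, fs_mkB, sn_mkB, hu]
    have : X ^ n * (u : PowerSeries k) * (-sn b * v ^ 2) + sn b * (X ^ n * v) =
      (1 - (u : PowerSeries k) * v) * (X ^ n * sn b * v) := by ring
    rw [this, hv]; ring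

theorem exists_dvd_pow (hσ : Trans σ) {r : RR σ} (hr : r ≠ 0) : ∃ n, r ∣ tR σ ^ n := by
  obtain ⟨n, hn⟩ := exists_dvd_pow_B (fs_ne_zero hσ hr)
  refine ⟨n, dvd_of_dvd hσ hr ?_⟩
  rw [coe_tR_pow]; exact hn

/-- the residue map -/
noncomputable def res (σ : PowerSeries k) : RR σ →+* k :=
  (constantCoeff (R := k)).comp ((fs k).comp (RR σ).subtype)

theorem res_apply (r : RR σ) : res σ r = constantCoeff (fs k (r : BB k)) := rfl

theorem isLocalHom_res (hσ : Trans σ) : IsLocalHom (res σ) where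
  map_nonunit := by
    intro r hr
    rw [isUnit_iff_ne_zero, res_apply] at hr
    have h1 : IsUnit (fs k (r : BB k)) := by
      rw [PowerSeries.isUnit_iff_constantCoeff, isUnit_iff_ne_zero]; exact hr
    have h2 : IsUnit (r : BB k) := TrivSqZeroExt.isUnit_iff_isUnit_fst.2 h1
    have hr0 : r ≠ 0 := by
      rintro rfl
      apply hr
      simp
    have h3 : r ∣ 1 := by
      apply dvd_of_dvd hσ hr0
      exact (isUnit_iff_dvd_one.1 h2)
    exact isUnit_of_dvd_one h3

theorem isLocal_RR (hσ : Trans σ) : IsLocalRing (RR σ) := by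
  have := isLocalHom_res hσ
  exact (res σ).domain_isLocalRing

theorem mem_max (hσ : Trans σ) [IsLocalRing (RR σ)] (r : RR σ) :
    r ∈ maximalIdeal (RR σ) ↔ res σ r = 0 := by
  have := isLocalHom_res hσ
  rw [mem_maximalIdeal, mem_nonunits_iff]
  constructor
  · intro h
    by_contra h1
    exact h (isUnit_of_map_unit (res σ) r (isUnit_iff_ne_zero.2 h1))
  · intro h h1
    have := h1.map (res σ)
    rw [h] at this
    exact not_isUnit_zero this

theorem res_surj : Function.Surjective (res σ) := by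
  intro c
  refine ⟨psiR σ (Polynomial.C (Polynomial.C c)), ?_⟩
  rw [res_apply, coe_psiR, psi_C, fs_inD, Polynomial.coe_C, constantCoeff_C]

theorem tR_mem (hσ : Trans σ) [IsLocalRing (RR σ)] : tR σ ∈ maximalIdeal (RR σ) := by
  rw [mem_max hσ, res_apply, coe_tR]
  exact constantCoeff_X

theorem wR_mem (hσ : Trans σ) [IsLocalRing (RR σ)] (n : ℕ) (hn : 1 ≤ n) :
    wR σ n ∈ maximalIdeal (RR σ) := by
  rw [mem_max hσ, res_apply, ← PowerSeries.X_dvd_iff]
  exact (dvd_pow_self _ (by omega)).trans (dvd_fs_wR σ n)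

theorem max_eq (hσ : Trans σ) [IsLocalRing (RR σ)] :
    maximalIdeal (RR σ) = Ideal.span {tR σ, wR σ 1} := by
  apply le_antisymm
  · intro r hr
    rw [mem_max hσ, res_apply, ← PowerSeries.X_dvd_iff] at hr
    rw [Ideal.mem_span_pair]
    have h1 : tR σ ^ 1 ∣ r - psiR σ (Polynomial.C (trunc 1 (sn (r : BB k)))) * wR σ 1 := by
      rw [tR_pow_dvd_iff hσ, AddSubgroupClass.coe_sub, Subring.coe_mul, coe_psiR, psi_C]
      constructor
      · rw [map_sub, map_mul]
        exact dvd_sub (by simpa using hr) (Dvd.dvd.mul_left (dvd_fs_wR σ 1) _)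
      · rw [sn_sub, sn_mul, sn_wR, fs_inD, sn_inD, zero_mul, add_zero, mul_one]
        exact X_pow_dvd_sub_trunc _ 1
    obtain ⟨c, hc⟩ := h1
    refine ⟨c, psiR σ (Polynomial.C (trunc 1 (sn (r : BB k)))), ?_⟩
    rw [pow_one] at hc
    linear_combination -hc
  · rw [Ideal.span_le]
    rintro r hr
    simp only [Set.mem_insert_iff, Set.mem_singleton_iff] at hr
    rcases hr with rfl | rfl
    · exact tR_mem hσ
    · exact wR_mem hσ 1 le_rfl

theorem sq_dvd (hσ : Trans σ) [IsLocalRing (RR σ)] {r : RR σ} (hr : r ∈ maximalIdeal (RR σ)) :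
    tR σ ∣ r ^ 2 := by
  rw [mem_max hσ, res_apply, ← PowerSeries.X_dvd_iff] at hr
  have : tR σ ^ 1 ∣ r ^ 2 := by
    rw [tR_pow_dvd_iff hσ, Subring.coe_pow, pow_one, pow_two, sn_mul, map_mul]
    exact ⟨Dvd.dvd.mul_right hr _, dvd_add (Dvd.dvd.mul_right hr _) (Dvd.dvd.mul_left hr _)⟩
  simpa using this

theorem primes (hσ : Trans σ) [IsLocalRing (RR σ)] (P : Ideal (RR σ)) (hP : P.IsPrime) :
    P = ⊥ ∨ P = maximalIdeal (RR σ) := by
  by_cases h : P = ⊥
  · exact Or.inl h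
  · right
    obtain ⟨r, hr, hr0⟩ := Submodule.exists_mem_ne_zero_of_ne_bot h
    obtain ⟨n, hn⟩ := exists_dvd_pow hσ hr0
    have ht : tR σ ∈ P := hP.mem_of_pow_mem n (P.mem_of_dvd hn hr)
    apply le_antisymm (le_maximalIdeal hP.ne_top)
    intro x hx
    exact hP.mem_of_pow_mem 2 (P.mem_of_dvd (sq_dvd hσ hx) ht)

theorem noeth_RR (hσ : Trans σ) : IsNoetherianRing (RR σ) := by
  classical
  have := isLocal_RR hσ
  apply IsNoetherianRing.of_prime
  intro P hP
  rcases primes hσ P hP with rfl | rfl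
  · exact Submodule.fg_bot
  · rw [max_eq hσ]
    exact ⟨{tR σ, wR σ 1}, by simp⟩

/-- The residue field is `k`. -/
theorem residue (hσ : Trans σ) [IsLocalRing (RR σ)] : Nonempty (ResidueField (RR σ) ≃+* k) := by
  have hk : maximalIdeal (RR σ) = RingHom.ker (res σ) := by
    ext r
    rw [mem_max hσ, RingHom.mem_ker]
  exact ⟨(Ideal.quotEquivOfEq hk).trans (RingHom.quotientKerEquivOfSurjective res_surj)⟩

end Pool.Agent.H661R3.DC
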